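import Pool.Agent.H37.CTN.Stmts

set_option autoImplicit false

namespace Pool.CND

theorem nlb_charF (p : ℕ) (F : Type) [Field F] (f q : ℕ)
    (hp : p.Prime) (hf : 1 ≤ f) (hq : q = p ^ f) (hF : Nat.card F = q) :
    CharP F p := by
  have := Fact.mk hp
  have : Finite F := Nat.finite_of_card_ne_zero (by rw [hF, hq]; exact pow_ne_zero _ hp.ne_zero)
  have : Fintype F := Fintype.ofFinite F
  obtain ⟨r, hr⟩ := CharP.exists F
  obtain ⟨n, hr1, hr2⟩ := FiniteField.card F r
  rw [Nat.card_eq_fintype_card, hr2, hq] at hF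
  have : p = r := by
    have h1 : p ∣ r ^ (n : ℕ) := hF ▸ dvd_pow_self p (by omega)
    exact (Nat.prime_dvd_prime_iff_eq hp hr1).1 (hp.dvd_of_dvd_pow h1)
  rw [this]; exact hr

/-- a finite field of characteristic `p` embeds in an algebraically closed one -/
theorem nlb_alg (p : ℕ) (k F : Type) [Field k] [IsAlgClosed k] [Field F] (hp : p.Prime)
    (hk : CharP k p) (hF : CharP F p) (hfin : Finite F) : Nonempty (Algebra F k) := by
  have := Fact.mk hp
  letI : Algebra (ZMod p) F := ZMod.algebra F p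
  letI : Algebra (ZMod p) k := ZMod.algebra k p
  have h1 : Algebra.IsAlgebraic (ZMod p) F := inferInstance
  exact ⟨(IsAlgClosed.lift (R := ZMod p) (S := F) (M := k)).toRingHom.toAlgebra⟩

theorem nlb_thm (hN : S_NC1) (hR : S_AR1) (hA : S_ALL) : S_NLB := by
  intro p k F _ _ _ f q n hp hk hf hq hF hn
  have hfin : Finite F :=
    Nat.finite_of_card_ne_zero (by rw [hF, hq]; exact pow_ne_zero _ hp.ne_zero)
  have hch : CharP F p := nlb_charF p F f q hp hf hq hF
  obtain ⟨hAl⟩ := nlb_alg p k F hp hk hch hfin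
  have hq2 : 2 ≤ q := by
    rw [hq]
    calc 2 ≤ p := hp.two_le
      _ = p ^ 1 := (pow_one p).symm
      _ ≤ p ^ f := Nat.pow_le_pow_right hp.pos hf
  refine hR q n _ hq2 hn ?_
  intro m hm1 hmn hm
  obtain ⟨r, hr⟩ : ∃ r, n = r + m + 1 := ⟨n - m - 1, by omega⟩
  subst hr
  have hc := hN p k F f q r m hp hk hf hq hF (by
    rcases hm with h | h
    · exact Or.inl h
    · by_cases h2 : 2 ≤ m
      · exact Or.inl h2
      · exact Or.inr ⟨by omega, by omega⟩)
  obtain ⟨z, hz⟩ := hA p k _ _ hp hk hc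
  refine ⟨z - (NG k (Matrix.SpecialLinearGroup (Fin (r + m + 1)) F) : ℤ), ?_⟩
  push_cast
  rw [← hz]
  ring

end Pool.CND
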